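import Mathlib

/-!
Determinants of zero-one matrices with three ones in every row.
-/

namespace Pool.Agent.Results.MP_ba77d1_co.RowThreeDet

open Finset Matrix

/-- `R n k`: the `n × n` zero-one matrices in which every row contains exactly `k` ones. -/
def R (n k : ℕ) : Set (Matrix (Fin n) (Fin n) ℝ) :=
  {A | (∀ i j, A i j = 0 ∨ A i j = 1) ∧ ∀ i, (univ.filter (fun j => A i j = 1)).card = k}

/-- `M_R(n, k)`, the maximum of `det A` over `A ∈ R(n, k)`. -/
noncomputable def MR (n k : ℕ) : ℝ := sSup {x | ∃ A ∈ R n k, x = A.det}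

/-- A positive semidefinite matrix with trace at most its size has determinant at most one. -/
theorem det_le_one {m : Type} [Fintype m] [DecidableEq m] (Y : Matrix m m ℝ) (hY : Y.PosSemidef)
    (htr : Y.trace ≤ Fintype.card m) : Y.det ≤ 1 := by
  have h1 := hY.isHermitian.det_eq_prod_eigenvalues
  have h2 := hY.isHermitian.trace_eq_sum_eigenvalues
  simp only [RCLike.ofReal_real_eq_id, id_eq] at h1 h2
  rw [h1]
  calc ∏ i, hY.isHermitian.eigenvalues i
      ≤ ∏ i, Real.exp (hY.isHermitian.eigenvalues i - 1) := by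
        apply prod_le_prod
        · intro i _
          exact hY.eigenvalues_nonneg i
        · intro i _
          have := Real.add_one_le_exp (hY.isHermitian.eigenvalues i - 1)
          linarith
    _ = Real.exp (Y.trace - Fintype.card m) := by
        rw [← Real.exp_sum, sum_sub_distrib, ← h2]
        simp
    _ ≤ 1 := by
        rw [Real.exp_le_one_iff]
        linarith

/-- A lower triangular square root of `A Aᵀ`. -/
theorem exists_L {n : ℕ} (A : Matrix (Fin n) (Fin n) ℝ) :
    ∃ L : Matrix (Fin n) (Fin n) ℝ, (∀ i j, i < j → L i j = 0) ∧ L * Lᵀ = A * Aᵀ := by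
  let a : Fin n → EuclideanSpace ℝ (Fin n) := fun i => WithLp.toLp 2 (A i)
  have hfr : Module.finrank ℝ (EuclideanSpace ℝ (Fin n)) = Fintype.card (Fin n) := by simp
  let u := InnerProductSpace.gramSchmidtOrthonormalBasis hfr a
  refine ⟨Matrix.of (fun i j => inner ℝ (u j) (a i)), ?_, ?_⟩
  · intro i j hij
    exact InnerProductSpace.gramSchmidtOrthonormalBasis_inv_triangular hfr a hij
  · ext i i'
    rw [mul_apply, mul_apply]
    simp only [of_apply, transpose_apply]
    have h := u.sum_inner_mul_inner (a i) (a i')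
    have h2 : (inner ℝ (a i) (a i') : ℝ) = ∑ j, A i j * A i' j := by
      simp only [a, PiLp.inner_apply, RCLike.inner_apply, conj_trivial]
      apply sum_congr rfl
      intro j _
      ring
    rw [← h2, ← h]
    apply sum_congr rfl
    intro j _
    rw [real_inner_comm (u j) (a i)]

section block

variable {S : Type} [Fintype S] [DecidableEq S]

/-- the test matrix `(1/2) (I - J / (d+2))` -/
noncomputable def Pm (S : Type) [Fintype S] [DecidableEq S] : Matrix S S ℝ :=
  (1 / 2 : ℝ) • (1 - Matrix.of (fun _ _ => 1 / ((Fintype.card S : ℝ) + 2)))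

theorem Pm_form (x : S → ℝ) : x ⬝ᵥ (Pm S *ᵥ x) =
    1 / 2 * (∑ i, x i ^ 2 - (∑ i, x i) ^ 2 / ((Fintype.card S : ℝ) + 2)) := by
  have h : ∀ i, (Pm S *ᵥ x) i = 1 / 2 * (x i - (∑ j, x j) / ((Fintype.card S : ℝ) + 2)) := by
    intro i
    unfold Pm
    rw [smul_mulVec, sub_mulVec, one_mulVec]
    simp only [Pi.smul_apply, Pi.sub_apply, smul_eq_mul, mulVec, dotProduct, of_apply]
    rw [← mul_sum]
    ring
  unfold dotProduct
  simp only [h]
  have h2 : ∀ i, x i * (1 / 2 * (x i - (∑ j, x j) / ((Fintype.card S : ℝ) + 2))) =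
      1 / 2 * (x i ^ 2) - x i * (1 / 2 * ((∑ j, x j) / ((Fintype.card S : ℝ) + 2))) := by
    intro i; ring
  simp only [h2]
  rw [sum_sub_distrib, ← mul_sum, ← sum_mul]
  ring

theorem Pm_posSemidef : (Pm S).PosSemidef := by
  apply Matrix.PosSemidef.of_dotProduct_mulVec_nonneg
  · unfold Pm
    ext i j
    simp [conjTranspose_apply, one_apply, eq_comm]
  · intro x
    rw [star_trivial, Pm_form]
    have h := sq_sum_le_card_mul_sum_sq (s := (univ : Finset S)) (f := x)
    rw [card_univ] at h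
    have h3 : (0 : ℝ) < (Fintype.card S : ℝ) + 2 := by positivity
    have h4 : (∑ i, x i) ^ 2 / ((Fintype.card S : ℝ) + 2) ≤ ∑ i, x i ^ 2 := by
      rw [div_le_iff₀ h3]
      have h5 : 0 ≤ ∑ i, x i ^ 2 := sum_nonneg (fun i _ => sq_nonneg _)
      nlinarith
    linarith

theorem Pm_det : (Pm S).det = 1 / (2 ^ (Fintype.card S) * (((Fintype.card S : ℝ) + 2) / 2)) := by
  unfold Pm
  rw [det_smul]
  have h : (1 : Matrix S S ℝ) - Matrix.of (fun _ _ => 1 / ((Fintype.card S : ℝ) + 2)) =
      (1 : Matrix S S ℝ) + (replicateCol Unit (fun _ : S => - (1 / ((Fintype.card S : ℝ) + 2)))) *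
        (replicateRow Unit (fun _ : S => (1 : ℝ))) := by
    ext i j
    simp [mul_apply, sub_eq_add_neg]
  rw [h, det_one_add_replicateCol_mul_replicateRow]
  simp only [dotProduct, one_mul, sum_const, card_univ, nsmul_eq_mul]
  have h3 : (Fintype.card S : ℝ) + 2 ≠ 0 := by positivity
  have h4 : ((1 : ℝ) / 2) ^ (Fintype.card S) = 1 / 2 ^ (Fintype.card S) := by
    rw [div_pow, one_pow]
  rw [h4]
  field_simp
  ring

end block

/-- The bound for the rows meeting a given column. -/
theorem block_bound {n : ℕ} (L : Matrix (Fin n) (Fin n) ℝ) (hL : ∀ i j, i < j → L i j = 0)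
    (S : Finset (Fin n)) (hdiag : ∀ i ∈ S, (L * Lᵀ) i i = 3)
    (hoff : ∀ i ∈ S, ∀ i' ∈ S, i ≠ i' → 1 ≤ (L * Lᵀ) i i') :
    ∏ i ∈ S, (L i i) ^ 2 ≤ 2 ^ S.card * (((S.card : ℝ) + 2) / 2) := by
  classical
  set d : ℝ := (S.card : ℝ) with hd
  let M : Matrix S S ℝ := L.submatrix Subtype.val Subtype.val
  have hMdet : M.det = ∏ i ∈ S, L i i := by
    rw [det_of_isLowerTriangular]
    · exact prod_coe_sort S (fun i => L i i)
    · intro i j hij
      exact hL _ _ hij
  have hY : (Mᴴ * Pm S * M).PosSemidef := Pm_posSemidef.conjTranspose_mul_mul_same M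
  have hcard : (Fintype.card S : ℝ) = d := by rw [Fintype.card_coe]
  -- the trace
  have hd2 : (0 : ℝ) < d + 2 := by positivity
  let φ : Fin n → ℝ := fun j =>
    1 / 2 * (∑ i ∈ S, L i j ^ 2 - (∑ i ∈ S, L i j) ^ 2 / (d + 2))
  have hφ : ∀ j, φ j = (fun i : S => L i j) ⬝ᵥ (Pm S *ᵥ (fun i : S => L i j)) := by
    intro j
    rw [Pm_form, hcard, sum_coe_sort S (fun i => L i j ^ 2), sum_coe_sort S (fun i => L i j)]
  have hφ0 : ∀ j, 0 ≤ φ j := by
    intro j
    rw [hφ j]
    exact Pm_posSemidef.dotProduct_mulVec_nonneg (fun i : S => L i j)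
  have htr : (Mᴴ * Pm S * M).trace = ∑ j ∈ S, φ j := by
    rw [← sum_coe_sort S φ]
    unfold Matrix.trace
    apply sum_congr rfl
    intro j _
    rw [diag_apply, hφ, mul_assoc, mul_apply]
    unfold dotProduct
    apply sum_congr rfl
    intro i _
    rw [conjTranspose_apply, star_trivial]
    congr 1
  have hsum : ∑ j, φ j ≤ d := by
    have h1 : ∑ j, φ j = 1 / 2 * (∑ i ∈ S, (L * Lᵀ) i i -
        (∑ i ∈ S, ∑ i' ∈ S, (L * Lᵀ) i i') / (d + 2)) := by
      simp only [φ]
      rw [← mul_sum, sum_sub_distrib, ← sum_div]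
      congr 2
      · rw [sum_comm]
        apply sum_congr rfl
        intro i _
        rw [mul_apply]
        apply sum_congr rfl
        intro j _
        rw [transpose_apply, pow_two]
      · congr 1
        have h2 : ∀ j, (∑ i ∈ S, L i j) ^ 2 = ∑ i ∈ S, ∑ i' ∈ S, L i j * L i' j := by
          intro j
          rw [pow_two, sum_mul_sum]
        simp only [h2]
        rw [sum_comm]
        apply sum_congr rfl
        intro i _
        rw [sum_comm]
        apply sum_congr rfl
        intro i' _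
        rw [mul_apply]
        rfl
    rw [h1]
    have h3 : ∑ i ∈ S, (L * Lᵀ) i i = 3 * d := by
      rw [sum_congr rfl hdiag, sum_const, nsmul_eq_mul, mul_comm]
    have h4 : d * (d + 2) ≤ ∑ i ∈ S, ∑ i' ∈ S, (L * Lᵀ) i i' := by
      have h5 : ∀ i ∈ S, d + 2 ≤ ∑ i' ∈ S, (L * Lᵀ) i i' := by
        intro i hi
        rw [← add_sum_erase S _ hi, hdiag i hi]
        have h6 : ∑ i' ∈ S.erase i, (1 : ℝ) ≤ ∑ i' ∈ S.erase i, (L * Lᵀ) i i' := by
          apply sum_le_sum
          intro i' hi'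
          rw [mem_erase] at hi'
          exact hoff i hi i' hi'.2 (Ne.symm hi'.1)
        rw [sum_const, nsmul_eq_mul, mul_one, card_erase_of_mem hi] at h6
        have h7 : ((S.card - 1 : ℕ) : ℝ) = d - 1 := by
          rw [Nat.cast_sub (card_pos.2 ⟨i, hi⟩)]; simp [hd]
        rw [h7] at h6
        linarith
      calc d * (d + 2) = ∑ i ∈ S, (d + 2) := by rw [sum_const, nsmul_eq_mul]
        _ ≤ _ := sum_le_sum h5
    rw [h3]
    have h8 : d ≤ (∑ i ∈ S, ∑ i' ∈ S, (L * Lᵀ) i i') / (d + 2) := by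
      rw [le_div_iff₀ hd2]; exact h4
    linarith
  have htr' : (Mᴴ * Pm S * M).trace ≤ Fintype.card S := by
    rw [htr, hcard]
    calc ∑ j ∈ S, φ j ≤ ∑ j, φ j :=
          sum_le_sum_of_subset_of_nonneg (subset_univ _) (fun j _ _ => hφ0 j)
      _ ≤ d := hsum
  have hdet := det_le_one _ hY htr'
  rw [det_mul, det_mul, det_conjTranspose, star_trivial, hMdet, Pm_det, hcard,
    Fintype.card_coe] at hdet
  have hpos : (0 : ℝ) < 2 ^ S.card * ((d + 2) / 2) := by positivity
  have h9 : (∏ i ∈ S, L i i) * (1 / (2 ^ S.card * ((d + 2) / 2))) * (∏ i ∈ S, L i i) =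
      (∏ i ∈ S, (L i i) ^ 2) / (2 ^ S.card * ((d + 2) / 2)) := by
    rw [prod_pow]; ring
  rw [h9, div_le_one hpos] at hdet
  exact hdet

/-- The main inequality: `det(A)^6 ≤ 20^n`. -/
theorem det_pow_six {n : ℕ} (A : Matrix (Fin n) (Fin n) ℝ) (hA : A ∈ R n 3) :
    A.det ^ 6 ≤ 20 ^ n := by
  classical
  obtain ⟨L, hL, hLL⟩ := exists_L A
  have h01 := hA.1
  -- entries of the Gram matrix
  have hG : ∀ i i', (L * Lᵀ) i i' = ∑ c, A i c * A i' c := by
    intro i i'
    rw [hLL, mul_apply]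
    rfl
  let S : Fin n → Finset (Fin n) := fun c => univ.filter (fun i => A i c = 1)
  have hrow : ∀ i, ∑ c, A i c = 3 := by
    intro i
    have h1 : ∀ c, A i c = if A i c = 1 then 1 else 0 := by
      intro c
      rcases h01 i c with h | h
      · rw [h]; norm_num
      · rw [h]; norm_num
    rw [sum_congr rfl (fun c _ => h1 c), ← sum_filter, sum_const, nsmul_eq_mul, hA.2 i]
    norm_num
  have hdiag : ∀ i, (L * Lᵀ) i i = 3 := by
    intro i
    rw [hG, ← hrow i]
    apply sum_congr rfl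
    intro c _
    rcases h01 i c with h | h
    · rw [h]; norm_num
    · rw [h]; norm_num
  have hblock : ∀ c, ∏ i ∈ S c, (L i i) ^ 2 ≤ 2 ^ (S c).card * ((((S c).card : ℝ) + 2) / 2) := by
    intro c
    apply block_bound L hL (S c) (fun i _ => hdiag i)
    intro i hi i' hi' _
    simp only [S, mem_filter, mem_univ, true_and] at hi hi'
    rw [hG]
    calc (1 : ℝ) = A i c * A i' c := by rw [hi, hi']; norm_num
      _ ≤ ∑ c, A i c * A i' c := by
        apply single_le_sum (f := fun c => A i c * A i' c) _ (mem_univ c)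
        intro c _
        have h1 : 0 ≤ A i c := by rcases h01 i c with h | h <;> rw [h] <;> norm_num
        have h2 : 0 ≤ A i' c := by rcases h01 i' c with h | h <;> rw [h] <;> norm_num
        exact mul_nonneg h1 h2
  -- determinant
  have hdet : A.det ^ 2 = ∏ i, (L i i) ^ 2 := by
    have h1 : A.det ^ 2 = (A * Aᵀ).det := by rw [det_mul, det_transpose, pow_two]
    have h2 : L.det = ∏ i, L i i := by
      rw [det_of_isLowerTriangular]
      intro i j hij
      exact hL _ _ hij
    rw [h1, ← hLL, det_mul, det_transpose, h2, prod_pow, pow_two]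
  -- double counting
  have hprod : A.det ^ 6 = ∏ c, ∏ i ∈ S c, (L i i) ^ 2 := by
    have h1 : ∏ c, ∏ i ∈ S c, (L i i) ^ 2 =
        ∏ i, ∏ c ∈ univ.filter (fun c => A i c = 1), (L i i) ^ 2 := by
      apply prod_comm'
      intro c i
      simp [S]
    rw [h1]
    simp only [prod_const, hA.2]
    rw [prod_pow, ← hdet]
    ring
  have hsumd : ∑ c, ((S c).card : ℝ) = 3 * n := by
    have h1 : ∀ c, ((S c).card : ℝ) = ∑ i, A i c := by
      intro c
      have h2 : ∀ i, A i c = if A i c = 1 then 1 else 0 := by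
        intro i
        rcases h01 i c with h | h
        · rw [h]; norm_num
        · rw [h]; norm_num
      rw [sum_congr rfl (fun i _ => h2 i), ← sum_filter, sum_const, nsmul_eq_mul, mul_one]
    simp only [h1]
    rw [sum_comm, sum_congr rfl (fun i _ => hrow i), sum_const, nsmul_eq_mul, card_univ,
      Fintype.card_fin, mul_comm]
  have hsumd' : ∑ c, (S c).card = 3 * n := by
    have : ((∑ c, (S c).card : ℕ) : ℝ) = ((3 * n : ℕ) : ℝ) := by
      push_cast
      exact hsumd
    exact_mod_cast this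
  rw [hprod]
  calc ∏ c, ∏ i ∈ S c, (L i i) ^ 2
      ≤ ∏ c, (2 ^ (S c).card * ((((S c).card : ℝ) + 2) / 2)) := by
        apply prod_le_prod
        · intro c _
          exact prod_nonneg (fun i _ => sq_nonneg _)
        · intro c _
          exact hblock c
    _ ≤ ∏ c : Fin n, (2 ^ (S c).card * (5 / 2 * Real.exp (((S c).card - 3 : ℝ) / 5))) := by
        apply prod_le_prod
        · intro c _
          positivity
        · intro c _
          apply mul_le_mul_of_nonneg_left _ (by positivity)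
          have := Real.add_one_le_exp (((S c).card - 3 : ℝ) / 5)
          linarith
    _ = 20 ^ n := by
        rw [prod_mul_distrib, prod_mul_distrib, prod_pow_eq_pow_sum, hsumd', ← Real.exp_sum,
          ← sum_div, sum_sub_distrib, hsumd]
        simp only [prod_const, sum_const, card_univ, Fintype.card_fin, nsmul_eq_mul]
        have h1 : (3 * (n : ℝ) - n * 3) / 5 = 0 := by ring
        rw [h1, Real.exp_zero, mul_one, pow_mul, ← mul_pow]
        norm_num

/-- `M_R(n, 3) ≤ 20^(n/6)`. -/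
theorem MR_le (n : ℕ) (hn : 1 ≤ n) : 0 ≤ MR n 3 ∧ MR n 3 ^ (1 / (n : ℝ)) ≤ 20 ^ (1 / 6 : ℝ) := by
  have hn0 : (0 : ℝ) < n := by exact_mod_cast hn
  have hb : ∀ x ∈ {x | ∃ A ∈ R n 3, x = A.det}, x ≤ (20 : ℝ) ^ ((n : ℝ) / 6) := by
    rintro x ⟨A, hA, rfl⟩
    have h := det_pow_six A hA
    by_contra hcon
    push Not at hcon
    have h0 : (0 : ℝ) < 20 ^ ((n : ℝ) / 6) := by positivity
    have h1 : ((20 : ℝ) ^ ((n : ℝ) / 6)) ^ 6 < A.det ^ 6 :=
      pow_lt_pow_left₀ hcon h0.le (by norm_num)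
    have h2 : ((20 : ℝ) ^ ((n : ℝ) / 6)) ^ 6 = 20 ^ n := by
      rw [← Real.rpow_natCast, ← Real.rpow_mul (by norm_num), ← Real.rpow_natCast]
      congr 1
      push_cast
      ring
    rw [h2] at h1
    linarith
  have h0 : 0 ≤ MR n 3 := by
    unfold MR
    by_cases hne : (R n 3).Nonempty
    · obtain ⟨A, hA⟩ := hne
      by_cases hd : 0 ≤ A.det
      · exact hd.trans (le_csSup ⟨_, hb⟩ ⟨A, hA, rfl⟩)
      · -- swap two rows
        push Not at hd
        have hn2 : 2 ≤ n := by
          by_contra h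
          have h1 : n = 1 := by omega
          subst h1
          have h2 : A.det = A 0 0 := by simp
          rw [h2] at hd
          rcases hA.1 0 0 with h | h <;> rw [h] at hd <;> norm_num at hd
        let i : Fin n := ⟨0, by omega⟩
        let j : Fin n := ⟨1, by omega⟩
        have hij : i ≠ j := by
          intro h
          have := congrArg Fin.val h
          simp [i, j] at this
        have h3 : (A.submatrix (Equiv.swap i j) id).det = - A.det := by
          rw [det_permute]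
          simp [Equiv.Perm.sign_swap hij]
        have h4 : A.submatrix (Equiv.swap i j) id ∈ R n 3 :=
          ⟨fun a b => hA.1 _ _, fun a => hA.2 _⟩
        have h5 : 0 ≤ (A.submatrix (Equiv.swap i j) id).det := by rw [h3]; linarith
        exact h5.trans (le_csSup ⟨_, hb⟩ ⟨_, h4, rfl⟩)
    · have : {x | ∃ A ∈ R n 3, x = A.det} = ∅ := by
        ext x
        simp only [Set.mem_ofPred_eq, Set.mem_empty_iff_false, iff_false]
        rintro ⟨A, hA, -⟩
        exact hne ⟨A, hA⟩
      rw [this, Real.sSup_empty]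
  refine ⟨h0, ?_⟩
  have h1 : MR n 3 ≤ (20 : ℝ) ^ ((n : ℝ) / 6) := by
    unfold MR
    apply Real.sSup_le hb
    positivity
  calc MR n 3 ^ (1 / (n : ℝ)) ≤ ((20 : ℝ) ^ ((n : ℝ) / 6)) ^ (1 / (n : ℝ)) :=
        Real.rpow_le_rpow h0 h1 (by positivity)
    _ = 20 ^ (1 / 6 : ℝ) := by
        rw [← Real.rpow_mul (by norm_num)]
        congr 1
        field_simp

theorem twenty_lt : (20 : ℝ) ^ (1 / 6 : ℝ) < (40 / 11 : ℝ) ^ (11 / 36 : ℝ) * 2 ^ (7 / 36 : ℝ) := by
  have h1 : ((20 : ℝ) ^ (1 / 6 : ℝ)) ^ 36 = 20 ^ 6 := by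
    rw [← Real.rpow_natCast, ← Real.rpow_mul (by norm_num), ← Real.rpow_natCast]
    norm_num
  have h2 : ((40 / 11 : ℝ) ^ (11 / 36 : ℝ) * 2 ^ (7 / 36 : ℝ)) ^ 36 = (40 / 11) ^ 11 * 2 ^ 7 := by
    rw [mul_pow, ← Real.rpow_natCast, ← Real.rpow_mul (by norm_num), ← Real.rpow_natCast (2 ^ _),
      ← Real.rpow_mul (by norm_num)]
    have e1 : (11 / 36 : ℝ) * ((36 : ℕ) : ℝ) = ((11 : ℕ) : ℝ) := by norm_num
    have e2 : (7 / 36 : ℝ) * ((36 : ℕ) : ℝ) = ((7 : ℕ) : ℝ) := by norm_num
    rw [e1, e2, Real.rpow_natCast, Real.rpow_natCast]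
  apply lt_of_pow_lt_pow_left₀ 36 (by positivity)
  rw [h1, h2]
  norm_num

/-- The limsup of `M_R(n,3)^(1/n)` is at most `20^(1/6) ≈ 1.6475`, hence strictly less than
`β₃ = (40/11)^(11/36) 2^(7/36) ≈ 1.6977`. -/
theorem result : Filter.limsup (fun n : ℕ => MR n 3 ^ (1 / (n : ℝ))) Filter.atTop ≤
      20 ^ (1 / 6 : ℝ) ∧
    Filter.limsup (fun n : ℕ => MR n 3 ^ (1 / (n : ℝ))) Filter.atTop <
      (40 / 11 : ℝ) ^ (11 / 36 : ℝ) * 2 ^ (7 / 36 : ℝ) := by
  have h : Filter.limsup (fun n : ℕ => MR n 3 ^ (1 / (n : ℝ))) Filter.atTop ≤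
      20 ^ (1 / 6 : ℝ) := by
    apply Filter.limsup_le_of_le
    · refine ⟨0, ?_⟩
      intro a ha
      rw [Filter.eventually_map] at ha
      obtain ⟨n, hn, hn1⟩ := (ha.and (Filter.eventually_ge_atTop 1)).exists
      exact (Real.rpow_nonneg (MR_le n hn1).1 _).trans hn
    · filter_upwards [Filter.eventually_ge_atTop 1] with n hn
      exact (MR_le n hn).2
  exact ⟨h, h.trans_lt twenty_lt⟩

end Pool.Agent.Results.MP_ba77d1_co.RowThreeDet
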